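import Pool.Agent.Helper69.UV.Defs

/-!
# UW: moderate deviations: definitions

`c` the length of a window in units of `2π/log T`, `m = V²` where `V` is the wanted deviation, `ll c m = log (c/m)`.
`w_p = c log p/log T`; primes of the resonator `T^(1/c) < p ≤ T^(δ/(64 m))`, coefficients `v sin(π w_p)`,
`|v| = vv δ c m = (1 + 20 δ) π √m / ll c m`, at most `KR δ m = ⌊8 m/δ⌋` prime factors, length `T^(1/8)`. The lengths are those of
UG. The kernel of scale `M` (`XX T M = log T/M`) sees about `M` zeros; `m ≤ M ≤ 2 c`. The mollifier is defined for any finite set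
`Q` of primes, used with `Q = PR δ T c m`. `near`, `far`, `NX`, `pt`, `XX`, `NR`, `NM`, `WW` are those of UG (`near T M Y t`,
`far T M Y t`), `ww`, `HH` those of UV.
-/

set_option autoImplicit false
open MeasureTheory Set Filter Topology
open Pool.Agent.Helper57.Zeta Pool.Agent.Helper57.LH Pool.Agent.Helper57.ED Pool.Agent.Helper54.LG
open Pool.Agent.Helper69.UG (pt XX NR NM WW)
open Pool.Agent.Helper69.UV (ww HH)

namespace Pool.Agent.Helper69.UW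

/-- `log (c/m)` -/
noncomputable def ll (c m : ℝ) : ℝ := Real.log (c / m)

/-- Size of the coefficients. -/
noncomputable def vv (δ c m : ℝ) : ℝ := (1 + 20 * δ) * Real.pi * √m / ll c m

/-- The exponent. -/
noncomputable def K0 (c m : ℝ) : ℝ := Real.pi ^ 2 * m / (2 * ll c m)

/-- Admissible `c`, `m`. -/
def Adm (c0 T c m : ℝ) : Prop :=
  3 ≤ c ∧ 1 ≤ m ∧ c0 * Real.log c ^ 2 ≤ m ∧ c0 * m ≤ c ∧ 64 * (c * Real.log (Real.log T)) ≤ Real.log T

/-- Primes of the resonator. -/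
noncomputable def PR (δ T c m : ℝ) : Finset ℕ :=
  (Finset.range (⌊T ^ (δ / (64 * m))⌋₊ + 1)).filter fun p => p.Prime ∧ T ^ (1 / c) < p

/-- Largest number of prime factors. -/
noncomputable def KR (δ m : ℝ) : ℕ := ⌊8 * m / δ⌋₊

/-- `sin(π w)`, `w = ww p`. -/
noncomputable def sw (T c : ℝ) (p : ℕ) : ℝ := Real.sin (Real.pi * ww T c p)

/-- Coefficient at a prime. -/
noncomputable def rp (T c v : ℝ) (p : ℕ) : ℝ := v * sw T c p

open Classical in
/-- Coefficients of the resonator. -/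
noncomputable def rr (δ T c m v : ℝ) (n : ℕ) : ℝ :=
  if Squarefree n ∧ n.primeFactors ⊆ PR δ T c m ∧ n.primeFactors.card ≤ KR δ m then ∏ p ∈ n.primeFactors, rp T c v p else 0

/-- The resonator. -/
noncomputable def RR (δ T c m v t : ℝ) : ℂ :=
  ∑ n ∈ Finset.Icc 1 (NR T), (rr δ T c m v n : ℂ) * (n : ℂ) ^ (-((1 / 2 : ℂ) + (t : ℂ) * Complex.I))

/-- Its diagonal mean square. -/
noncomputable def VV (δ T c m v : ℝ) : ℝ := ∑ n ∈ Finset.Icc 1 (NR T), rr δ T c m v n ^ 2 / n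

/-- `∑ rp²/p` -/
noncomputable def KK (δ T c m v : ℝ) : ℝ := ∑ p ∈ PR δ T c m, rp T c v p ^ 2 / p

/-- The weight. -/
noncomputable def wt (δ T c m v τ t : ℝ) : ℝ := PW (WW T) (t - τ) * ‖RR δ T c m v t‖ ^ 2

/-- The prime sum of the resonator. -/
noncomputable def PP1 (δ T c m v t : ℝ) : ℂ :=
  ∑ p ∈ PR δ T c m, (rp T c v p : ℂ) * (p : ℂ) ^ (-((1 / 2 : ℂ) + (t : ℂ) * Complex.I))

/-- The sum of the squares of its terms. -/
noncomputable def PP2 (δ T c m v t : ℝ) : ℂ :=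
  ∑ p ∈ PR δ T c m, ((rp T c v p : ℂ) * (p : ℂ) ^ (-((1 / 2 : ℂ) + (t : ℂ) * Complex.I))) ^ 2

open Classical in
/-- Mollifier, part coprime to the primes of `Q`. -/
noncomputable def ma (T : ℝ) (Q : Finset ℕ) (d : ℕ) : ℝ :=
  if ∀ p ∈ Q, ¬ p ∣ d then
    (ArithmeticFunction.moebius d : ℝ) * max 0 (min 1 (2 - 32 * Real.log d / Real.log T)) else 0

open Classical in
/-- Mollifier, part composed of the primes of `Q`. -/
noncomputable def mb (T : ℝ) (Q : Finset ℕ) (d : ℕ) : ℝ :=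
  if d.primeFactors ⊆ Q ∧ (d : ℝ) ≤ T ^ (1 / 32 : ℝ) then (ArithmeticFunction.moebius d : ℝ) else 0

/-- The mollifier. -/
noncomputable def mm (T : ℝ) (Q : Finset ℕ) (n : ℕ) : ℝ := ∑ x ∈ n.divisorsAntidiagonal, ma T Q x.1 * mb T Q x.2

/-- `ζ M`. -/
noncomputable def FF (T : ℝ) (Q : Finset ℕ) (s : ℂ) : ℂ := riemannZeta s * Mo (NM T) (mm T Q) s

/-- `1 * m`. -/
noncomputable def gg (T : ℝ) (Q : Finset ℕ) (n : ℕ) : ℝ := ∑ d ∈ n.divisors, mm T Q d

/-- `∑_n r(n) r(pn)/n`. -/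
noncomputable def WP (δ T c m v : ℝ) (p : ℕ) : ℝ :=
  ∑ n ∈ Finset.Icc 1 (NR T), rr δ T c m v n * rr δ T c m v (p * n) / n

/-- Circle mean of `‖F - 1‖`, centre `1/2 + 4·2^k y/log T + it`, radius `(4·2^k - 1/2) y/log T`. -/
noncomputable def circ (T : ℝ) (Q : Finset ℕ) (y : ℝ) (k : ℕ) (t : ℝ) : ℝ :=
  (2 * Real.pi)⁻¹ * ∫ φ in (0:ℝ)..(2 * Real.pi),
    ‖FF T Q (pt T (4 * 2 ^ k * y) t + (((4 * 2 ^ k - 1 / 2) * y / Real.log T : ℝ) : ℂ) * Complex.exp (φ * Complex.I)) - 1‖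

/-- `‖F - 1‖` at the centre. -/
noncomputable def cen (T : ℝ) (Q : Finset ℕ) (y : ℝ) (k : ℕ) (t : ℝ) : ℝ := ‖FF T Q (pt T (4 * 2 ^ k * y) t) - 1‖

/-- Majorant for the number of zeros in a cell (`K` the number of circles). -/
noncomputable def GY (T : ℝ) (Q : Finset ℕ) (y : ℝ) (K : ℕ) (t : ℝ) : ℝ :=
  15 * (circ T Q y 0 t + 2 * cen T Q y 0 t) +
    ∑ k ∈ Finset.Ico 1 K, 15 * 2 ^ k * (circ T Q y k t + 2 * cen T Q y k t) * (2 * cen T Q y (k - 1) t)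

/-- The prime sum averaged over a window, kernel scale `m`. -/
noncomputable def WS (T c m t : ℝ) : ℝ :=
  XX T m / (2 * Real.pi) * ∫ w in (-(HH T c))..(HH T c), SS (XX T m) (t + w)

/-- Measure statement, clusters. -/
def Mp : Prop := ∀ ε : ℝ, 0 < ε → ∃ B c₁ T₀ : ℝ, 1 ≤ B ∧ 0 < c₁ ∧ ∀ T : ℝ, T₀ ≤ T → ∀ c V : ℝ, B ≤ c →
  B * Real.log c ≤ V → B * V ≤ √c → c ≤ c₁ * (Real.log T / Real.log (Real.log T)) →
    ENNReal.ofReal (Real.exp (-((Real.pi ^ 2 / 2 + ε) * V ^ 2 / Real.log (c / V ^ 2))) * T) ≤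
      volume {t : ℝ | T ≤ t ∧ t ≤ 2 * T ∧
        c + V ≤ (Pool.Agent.Helper93.UG.zc (Ico t (t + c * Pool.Agent.Helper93.UG.sp T)) : ℝ)}

/-- Measure statement, long gaps; there is an ordinate in `[t - B c sp T, t)`. -/
def Mm : Prop := ∀ ε : ℝ, 0 < ε → ∃ B c₁ T₀ : ℝ, 1 ≤ B ∧ 0 < c₁ ∧ ∀ T : ℝ, T₀ ≤ T → ∀ c V : ℝ, B ≤ c →
  B * Real.log c ≤ V → B * V ≤ √c → c ≤ c₁ * (Real.log T / Real.log (Real.log T)) →
    ENNReal.ofReal (Real.exp (-((Real.pi ^ 2 / 2 + ε) * V ^ 2 / Real.log (c / V ^ 2))) * T) ≤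
      volume {t : ℝ | T ≤ t ∧ t ≤ 2 * T ∧
        (Pool.Agent.Helper93.UG.zc (Ico t (t + c * Pool.Agent.Helper93.UG.sp T)) : ℝ) ≤ c - V ∧
        ∃ g : ℝ, Pool.Agent.Helper93.UG.IsOrd g ∧ t - B * c * Pool.Agent.Helper93.UG.sp T ≤ g ∧ g < t}

/-! ### consequences of admissibility -/

theorem Adm.mono {a b T c m : ℝ} (h : Adm b T c m) (hab : a ≤ b) : Adm a T c m := by
  obtain ⟨h1, h2, h3, h4, h5⟩ := h
  refine ⟨h1, h2, le_trans ?_ h3, le_trans ?_ h4, h5⟩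
  · exact mul_le_mul_of_nonneg_right hab (sq_nonneg _)
  · exact mul_le_mul_of_nonneg_right hab (by linarith)

theorem Adm.one_le_log {a T c m : ℝ} (h : Adm a T c m) : 1 ≤ Real.log c := by
  have h3 : Real.exp 1 ≤ 3 := by linarith [Real.exp_one_lt_d9]
  have := Real.log_le_log (Real.exp_pos 1) (h3.trans h.1)
  rwa [Real.log_exp] at this

theorem Adm.le_m {a T c m : ℝ} (h : Adm a T c m) (ha : 0 ≤ a) : a ≤ m := by
  have h1 := h.one_le_log
  have h2 : a * 1 ≤ a * Real.log c ^ 2 := mul_le_mul_of_nonneg_left (by nlinarith) ha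
  linarith [h.2.2.1]

theorem Adm.le_c {a T c m : ℝ} (h : Adm a T c m) (ha : 0 ≤ a) : a ≤ c := by
  have h2 : a * 1 ≤ a * m := mul_le_mul_of_nonneg_left h.2.1 ha
  linarith [h.2.2.2.1]

theorem Adm.m_le_c {a T c m : ℝ} (h : Adm a T c m) (ha : 1 ≤ a) : m ≤ c := by
  have h2 : 1 * m ≤ a * m := mul_le_mul_of_nonneg_right ha (by linarith [h.2.1])
  linarith [h.2.2.2.1]

theorem Adm.log_le_ll {a T c m : ℝ} (h : Adm a T c m) (ha : 0 < a) : Real.log a ≤ ll c m := by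
  have hm : 0 < m := by linarith [h.2.1]
  unfold ll
  apply Real.log_le_log ha
  rw [le_div_iff₀ hm]
  exact h.2.2.2.1

theorem Adm.ll_le {a T c m : ℝ} (h : Adm a T c m) : ll c m ≤ Real.log c := by
  have hm : 0 < m := by linarith [h.2.1]
  have hc : 0 < c := by linarith [h.1]
  unfold ll
  apply Real.log_le_log (by positivity)
  rw [div_le_iff₀ hm]
  nlinarith [h.2.1]

/-- `log c ≤ √m/√c0` -/
theorem Adm.log_le_sqrt {a T c m : ℝ} (h : Adm a T c m) (ha : 0 ≤ a) : √a * Real.log c ≤ √m := by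
  have h1 := h.one_le_log
  have h2 : √a * Real.log c = √(a * Real.log c ^ 2) := by
    rw [Real.sqrt_mul ha, Real.sqrt_sq (by linarith)]
  rw [h2]
  exact Real.sqrt_le_sqrt h.2.2.1

theorem ll_pos {a T c m : ℝ} (h : Adm a T c m) (ha : 1 < a) : 0 < ll c m :=
  lt_of_lt_of_le (Real.log_pos ha) (h.log_le_ll (by linarith))

theorem vv_pos {δ a T c m : ℝ} (hδ : 0 < δ) (h : Adm a T c m) (ha : 1 < a) : 0 < vv δ c m := by
  have h1 := ll_pos h ha
  have h2 : 0 < √m := Real.sqrt_pos.mpr (by linarith [h.2.1])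
  have := Real.pi_pos
  unfold vv
  positivity

/-- `|v| ≤ 6 √m/ll c m` -/
theorem vv_le {δ a T c m : ℝ} (_ : 0 < δ) (hδ1 : δ ≤ 1 / 32) (h : Adm a T c m) (ha : 1 < a) : vv δ c m ≤ 6 * √m / ll c m := by
  have h1 := ll_pos h ha
  have h2 : 0 < √m := Real.sqrt_pos.mpr (by linarith [h.2.1])
  have h3 := Real.pi_lt_d2
  have h4 := Real.pi_pos
  unfold vv
  apply div_le_div_of_nonneg_right _ h1.le
  apply mul_le_mul_of_nonneg_right _ h2.le
  nlinarith

/-- `c` is small against `log T`. -/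
theorem Adm.c_le : ∀ B : ℝ, ∃ T0 : ℝ, 16 ≤ T0 ∧ ∀ a T c m : ℝ, T0 ≤ T → Adm a T c m → B * c ≤ Real.log T := by
  intro B
  have hl : Tendsto (fun T : ℝ => Real.log (Real.log T)) atTop atTop := Real.tendsto_log_atTop.comp Real.tendsto_log_atTop
  obtain ⟨T0, hT0⟩ := eventually_atTop.mp ((hl.eventually_ge_atTop |B|).and (eventually_ge_atTop 16))
  refine ⟨max 16 T0, le_max_left _ _, fun a T c m hT h => ?_⟩
  obtain ⟨h1, h2⟩ := hT0 T ((le_max_right _ _).trans hT)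
  have hc : 0 < c := by linarith [h.1]
  have h3 := h.2.2.2.2
  have h4 : c * |B| ≤ c * Real.log (Real.log T) := mul_le_mul_of_nonneg_left h1 hc.le
  have h5 : B * c ≤ c * |B| := by rw [mul_comm]; exact mul_le_mul_of_nonneg_left (le_abs_self B) hc.le
  have h6 : 0 ≤ c * |B| := by positivity
  linarith

end Pool.Agent.Helper69.UW
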